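import Pool.Agent.Q2.PM.Stm

/-! Project PM: the parts A5 and A7. -/

set_option autoImplicit false

namespace Pool.Agent.Q278.PM

open Subgroup Q2.PM
open Q2.TN (Nm)

theorem nm_map {G K : Type} [Group G] [Group K] (f : G →* K) (H : Subgroup G) {n : G}
    (hn : n ∈ Nm H) : f n ∈ Nm (H.map f) := by
  have h1 : (Nm H).map f ≤ Nm (H.map f) := Subgroup.le_normalizer_map f
  exact h1 (Subgroup.mem_map_of_mem f hn)

theorem a5 : Q2.PM.S_A5 := by
  intro G K _ _ _ _ f H hf hP
  obtain ⟨B, hB, hX⟩ := hP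
  refine ⟨B.map f, fun k => ?_, fun X hXB => ?_⟩
  · obtain ⟨g, rfl⟩ := hf k
    obtain ⟨n, hn, b, hb, rfl⟩ := hB g
    exact ⟨f n, nm_map f H hn, f b, Subgroup.mem_map_of_mem f hb, map_mul f n b⟩
  · intro h' hh' x hx
    obtain ⟨h, hh, rfl⟩ := Subgroup.mem_map.1 hh'
    obtain ⟨b, hb, rfl⟩ := Subgroup.mem_map.1 (hXB hx)
    obtain ⟨y, hy, h2, hh2, e⟩ := hX (X.comap f ⊓ B) inf_le_right h hh b ⟨hx, hb⟩
    refine ⟨f y, hy.1, f h2, Subgroup.mem_map_of_mem f hh2, ?_⟩
    rw [← map_mul, e, map_mul]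

theorem a7 (h3 : Q2.PM.S_A3) (h4 : Q2.PM.S_A4) (h5 : Q2.PM.S_A5) : Q2.PM.S_A7 := by
  intro G _ _ H N hH hP hN hHN
  set f := QuotientGroup.mk' N with hf
  have hs : Function.Surjective f := QuotientGroup.mk'_surjective N
  have hk : f.ker = N := QuotientGroup.ker_mk' N
  have hne : H.map f ≠ ⊥ := by
    intro h
    apply hHN
    have := (Subgroup.map_eq_bot_iff H).1 h
    rwa [hk] at this
  have hPG : IsPGroup 2 (H.map f) := hH.map f
  obtain ⟨N', hN'n, hN'b, hN'c⟩ := h3 (G ⧸ N) (H.map f) hne hPG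
    (h4 (G ⧸ N) (H.map f) hPG (h5 G (G ⧸ N) f H hs hP))
  have hcard : N.relIndex (N'.comap f) = Nat.card N' := by
    have e1 : (⊥ : Subgroup (G ⧸ N)).comap f = N := hk
    have e2 : ((⊥ : Subgroup (G ⧸ N)).comap f).relIndex (N'.comap f) =
        (⊥ : Subgroup (G ⧸ N)).relIndex ((N'.comap f).map f) := Subgroup.relIndex_comap _ _ _
    calc N.relIndex (N'.comap f) = ((⊥ : Subgroup (G ⧸ N)).comap f).relIndex (N'.comap f) :=
          congrArg (fun M : Subgroup G => M.relIndex (N'.comap f)) e1.symm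
      _ = (⊥ : Subgroup (G ⧸ N)).relIndex ((N'.comap f).map f) := e2
      _ = Nat.card N' := by
          rw [Subgroup.map_comap_eq_self_of_surjective hs, Subgroup.relIndex_bot_left]
  refine ⟨N'.comap f, hN'n.comap f, ?_, ?_⟩
  · refine lt_of_le_of_ne ?_ ?_
    · intro x hx
      show f x ∈ N'
      have : f x = 1 := by
        have : x ∈ f.ker := by rw [hk]; exact hx
        exact this
      rw [this]; exact N'.one_mem
    · intro h
      apply hN'b
      rw [← Subgroup.card_eq_one, ← hcard, ← h, Subgroup.relIndex_self]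
  · rcases hN'c with h | h
    · left
      obtain ⟨j, hj⟩ := IsPGroup.iff_card.1 h
      exact ⟨j, by rw [hcard, hj]⟩
    · right
      rw [hcard]; exact h

end Pool.Agent.Q278.PM
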